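import Mathlib

/-!
# The fixed point property `(F_{*s})` and the partially bicyclic semigroup `S_2`
-/

set_option autoImplicit false

open Set WeakDual

namespace Q170.FS

/-- the generators `a`, `b`, `c` -/
inductive Gen : Type
  | a
  | b
  | c

/-- the defining relations `a b = e` and `a c = e` -/
inductive Rel : FreeMonoid Gen → FreeMonoid Gen → Prop
  | ab : Rel (FreeMonoid.of Gen.a * FreeMonoid.of Gen.b) 1
  | ac : Rel (FreeMonoid.of Gen.a * FreeMonoid.of Gen.c) 1

/-- the partially bicyclic semigroup `S_2 = ⟨e, a, b, c : a b = a c = e⟩` -/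
abbrev S2 : Type := PresentedMonoid Rel

section

variable {𝕜 E : Type*} [RCLike 𝕜] [NormedAddCommGroup E] [NormedSpace 𝕜 E]

/-- the dual norm of `x - y`, for `x`, `y` in the dual space `E^*` with its weak-star topology -/
noncomputable def ndist (x y : WeakDual 𝕜 E) : ℝ := ‖toStrongDual x - toStrongDual y‖

/-- `C` is separable for the dual norm. -/
def NormSeparable (C : Set (WeakDual 𝕜 E)) : Prop :=
  TopologicalSpace.IsSeparable (toStrongDual '' C)

/-- `T` is a norm nonexpansive representation of the (discrete) semigroup `S` on the subset `C`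
of the dual space `E^*`, by maps which are continuous for the weak-star topology. -/
structure IsRep {S : Type*} [Mul S] (C : Set (WeakDual 𝕜 E))
    (T : S → WeakDual 𝕜 E → WeakDual 𝕜 E) : Prop where
  maps : ∀ s, ∀ x ∈ C, T s x ∈ C
  mul : ∀ s t, ∀ x ∈ C, T (s * t) x = T s (T t x)
  nonexp : ∀ s, ∀ x ∈ C, ∀ y ∈ C, ndist (T s x) (T s y) ≤ ndist x y
  cont : ∀ s, ContinuousOn (T s) C

end

/-- the property `(F_{*s})` for the Banach space `E` -/
def HasFOn (S : Type*) [Mul S] (𝕜 E : Type*) [RCLike 𝕜] [NormedAddCommGroup E]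
    [NormedSpace 𝕜 E] : Prop :=
  ∀ C : Set (WeakDual 𝕜 E), C.Nonempty → IsCompact C → Convex ℝ C → NormSeparable C →
    ∀ T : S → WeakDual 𝕜 E → WeakDual 𝕜 E, IsRep C T → ∃ x ∈ C, ∀ s, T s x = x

/-- the fixed point property `(F_{*s})` -/
def HasF.{u, v} (S : Type u) [Mul S] : Prop :=
  ∀ (𝕜 : Type) [RCLike 𝕜] (E : Type v) [NormedAddCommGroup E] [NormedSpace 𝕜 E]
    [CompleteSpace E], HasFOn S 𝕜 E

end Q170.FS
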