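import Pool.Agent.Q170.FS.Min

/-!
# The partially bicyclic semigroup has the fixed point property `(F_{*s})`
-/

set_option autoImplicit false

open Set WeakDual Topology

namespace Q170.FS

theorem exists_min {X : Type*} [TopologicalSpace X] [T2Space X] (P : Set X → Prop)
    (hP : ∀ c : Set (Set X), c.Nonempty → (∀ s ∈ c, P s) → P (⋂₀ c)) (C : Set X)
    (hC : C.Nonempty) (hcpt : IsCompact C) (hPC : P C) :
    ∃ K ⊆ C, K.Nonempty ∧ IsCompact K ∧ P K ∧
      ∀ K' ⊆ K, K'.Nonempty → IsCompact K' → P K' → K' = K := by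
  obtain ⟨K, hKC, hK⟩ := zorn_superset_nonempty {K : Set X | K.Nonempty ∧ IsCompact K ∧ P K} (by
    intro c hc hchain hne
    refine ⟨⋂₀ c, ⟨?_, ?_, hP c hne fun s hs => (hc hs).2.2⟩, fun s hs => sInter_subset_of_mem hs⟩
    · have : Nonempty c := hne.to_subtype
      refine IsCompact.nonempty_sInter_of_directed_nonempty_isCompact_isClosed ?_
        (fun U hU => (hc hU).1) (fun U hU => (hc hU).2.1) (fun U hU => (hc hU).2.1.isClosed)
      intro x hx y hy
      rcases hchain.total hx hy with h | h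
      · exact ⟨x, hx, subset_rfl, h⟩
      · exact ⟨y, hy, h, subset_rfl⟩
    · obtain ⟨s, hs⟩ := hne
      refine IsCompact.of_isClosed_subset (hc hs).2.1 ?_ (sInter_subset_of_mem hs)
      exact isClosed_sInter fun t ht => (hc ht).2.1.isClosed) C ⟨hC, hcpt, hPC⟩
  refine ⟨K, hKC, hK.1.1, hK.1.2.1, hK.1.2.2, fun K' hK' h1 h2 h3 => ?_⟩
  exact subset_antisymm hK' (hK.2 ⟨h1, h2, h3⟩ hK')

theorem hasF_of_gen.{u, v} {S : Type u} [Monoid S] (a : S) (B : Set S) (hB : ∀ b ∈ B, a * b = 1)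
    (hBne : B.Nonempty) (hgen : Submonoid.closure (insert a B) = ⊤) : HasF.{u, v} S := by
  intro 𝕜 _ E _ _ _ C hCne hCcpt hCconv hCsep T hT
  obtain ⟨K, hKC, hKne, hKcpt, ⟨hKconv, hKinv⟩, hKmin⟩ := exists_min
    (fun K : Set (WeakDual 𝕜 E) => Convex ℝ K ∧ ∀ s, ∀ x ∈ K, T s x ∈ K)
    (by
      intro c _ hc
      refine ⟨convex_sInter fun s hs => (hc s hs).1, fun s x hx => ?_⟩
      exact mem_sInter.2 fun t ht => (hc t ht).2 s x (mem_sInter.1 hx t ht))
    C hCne hCcpt ⟨hCconv, hT.maps⟩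
  obtain ⟨M, hMK, hMne, hMcpt, hMinv, hMmin⟩ := exists_min
    (fun K : Set (WeakDual 𝕜 E) => ∀ s, ∀ x ∈ K, T s x ∈ K)
    (by
      intro c _ hc s x hx
      exact mem_sInter.2 fun t ht => (hc t ht) s x (mem_sInter.1 hx t ht))
    K hKne hKcpt hKinv
  have hMC : M ⊆ C := hMK.trans hKC
  have hM : IsMin M T := ⟨hMne, hMcpt, ⟨hMinv, fun s t x hx => hT.mul s t x (hMC hx),
    fun s x hx y hy => hT.nonexp s x (hMC hx) y (hMC hy),
    fun s => (hT.cont s).mono hMC⟩, hMmin⟩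
  have hsep : TopologicalSpace.IsSeparable (toStrongDual '' M) :=
    TopologicalSpace.IsSeparable.mono hCsep (image_mono hMC)
  have hcpt := hM.normCompact a B hB hBne hgen hsep
  have hsurj := hM.surj a B hB hBne hgen hsep
  set δ := Metric.diam (toStrongDual '' M) with hδ
  have hδ0 : 0 ≤ δ := Metric.diam_nonneg
  have hdist : ∀ x ∈ M, ∀ y ∈ M, dist (toStrongDual x) (toStrongDual y) ≤ δ := fun x hx y hy =>
    Metric.dist_le_diam_of_mem hcpt.isBounded ⟨x, hx, rfl⟩ ⟨y, hy, rfl⟩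
  obtain ⟨x₀, hx₀⟩ := hMne
  rcases hδ0.eq_or_lt with h0 | hpos
  · refine ⟨x₀, hMC hx₀, fun s => ?_⟩
    have h1 := hdist (T s x₀) (hMinv s x₀ hx₀) x₀ hx₀
    rw [← h0] at h1
    exact toStrongDual.injective (dist_le_zero.1 h1)
  exfalso
  -- a finite net
  obtain ⟨t, htM, htfin, htcov⟩ := Metric.finite_approx_of_totallyBounded
    hcpt.totallyBounded (δ / 2) (by linarith)
  classical
  let F : Finset (WeakDual 𝕜 E) := htfin.toFinset.image toStrongDual.symm
  have hFM : ∀ z ∈ F, z ∈ M := by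
    intro z hz
    obtain ⟨w, hw, rfl⟩ := Finset.mem_image.1 hz
    obtain ⟨v, hv, rfl⟩ := htM (htfin.mem_toFinset.1 hw)
    simpa using hv
  have hFnet : ∀ y ∈ M, ∃ z ∈ F, dist (toStrongDual z) (toStrongDual y) ≤ δ / 2 := by
    intro y hy
    obtain ⟨w, hw, hyw⟩ := mem_iUnion₂.1 (htcov ⟨y, hy, rfl⟩)
    refine ⟨toStrongDual.symm w, Finset.mem_image_of_mem _ (htfin.mem_toFinset.2 hw), ?_⟩
    rw [LinearEquiv.apply_symm_apply, dist_comm]
    exact (Metric.mem_ball.1 hyw).le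
  have hFne : F.Nonempty := by
    obtain ⟨z, hz, -⟩ := hFnet x₀ hx₀
    exact ⟨z, hz⟩
  set N : ℝ := (F.card : ℝ) with hN
  have hNpos : 0 < N := by
    rw [hN]
    exact_mod_cast hFne.card_pos
  let u : WeakDual 𝕜 E := ∑ z ∈ F, (N⁻¹ : ℝ) • z
  have huK : u ∈ K := by
    have h1 : ∑ _z ∈ F, (N⁻¹ : ℝ) = 1 := by
      rw [Finset.sum_const, nsmul_eq_mul, ← hN, mul_inv_cancel₀ hNpos.ne']
    have h2 : ∀ z ∈ F, (0 : ℝ) ≤ N⁻¹ := fun _ _ => by positivity
    exact Convex.sum_mem (t := F) (w := fun _ : WeakDual 𝕜 E => (N⁻¹ : ℝ)) (z := fun z => z)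
      hKconv h2 h1 fun z hz => hMK (hFM z hz)
  set r : ℝ := δ * (1 - 1 / (2 * N)) with hr
  have hrδ : r < δ := by
    rw [hr]
    have : 0 < 1 / (2 * N) := by positivity
    nlinarith
  have hlin : ∀ (c : ℝ) (z : WeakDual 𝕜 E), toStrongDual (c • z) = c • toStrongDual z :=
    fun c z => rfl
  have hu : ∀ y ∈ M, dist (toStrongDual u) (toStrongDual y) ≤ r := by
    intro y hy
    have h1 : toStrongDual u - toStrongDual y =
        ∑ z ∈ F, (N⁻¹ : ℝ) • (toStrongDual z - toStrongDual y) := by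
      have h0 : toStrongDual u = ∑ z ∈ F, (N⁻¹ : ℝ) • toStrongDual z :=
        (map_sum toStrongDual _ _).trans (Finset.sum_congr rfl fun z _ => hlin _ z)
      have h00 : ∑ z ∈ F, (N⁻¹ : ℝ) • toStrongDual y = toStrongDual y := by
        rw [Finset.sum_const, ← Nat.cast_smul_eq_nsmul ℝ, ← hN, smul_smul,
          mul_inv_cancel₀ hNpos.ne', one_smul]
      calc toStrongDual u - toStrongDual y
          = ∑ z ∈ F, (N⁻¹ : ℝ) • toStrongDual z - ∑ z ∈ F, (N⁻¹ : ℝ) • toStrongDual y := by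
            rw [h0, h00]
        _ = ∑ z ∈ F, (N⁻¹ : ℝ) • (toStrongDual z - toStrongDual y) := by
            rw [← Finset.sum_sub_distrib]
            exact Finset.sum_congr rfl fun z _ => (smul_sub _ _ _).symm
    obtain ⟨w, hw, hwd⟩ := hFnet y hy
    have h2 : ∑ z ∈ F, ‖toStrongDual z - toStrongDual y‖ ≤ N * δ - δ / 2 := by
      rw [← Finset.add_sum_erase F _ hw]
      have h3 : ∑ z ∈ F.erase w, ‖toStrongDual z - toStrongDual y‖ ≤ ∑ z ∈ F.erase w, δ := by
        refine Finset.sum_le_sum fun z hz => ?_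
        rw [← dist_eq_norm]
        exact hdist z (hFM z (Finset.mem_of_mem_erase hz)) y hy
      rw [Finset.sum_const, Finset.card_erase_of_mem hw, nsmul_eq_mul,
        Nat.cast_sub hFne.card_pos, ← hN, Nat.cast_one] at h3
      rw [dist_eq_norm] at hwd
      linarith
    rw [dist_eq_norm, h1]
    calc ‖∑ z ∈ F, (N⁻¹ : ℝ) • (toStrongDual z - toStrongDual y)‖
        ≤ ∑ z ∈ F, ‖(N⁻¹ : ℝ) • (toStrongDual z - toStrongDual y)‖ := norm_sum_le _ _
      _ = N⁻¹ * ∑ z ∈ F, ‖toStrongDual z - toStrongDual y‖ := by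
          rw [Finset.mul_sum]
          refine Finset.sum_congr rfl fun z _ => ?_
          rw [norm_smul, Real.norm_of_nonneg (by positivity)]
      _ ≤ N⁻¹ * (N * δ - δ / 2) := by gcongr
      _ = r := by rw [hr]; field_simp
  let K₀ : Set (WeakDual 𝕜 E) := {x | x ∈ K ∧ ∀ y ∈ M, dist (toStrongDual x) (toStrongDual y) ≤ r}
  have hK₀ : K₀ = K := by
    refine hKmin K₀ (fun x hx => hx.1) ⟨u, huK, hu⟩ ?_ ⟨?_, ?_⟩
    · have : K₀ = K ∩ ⋂ y ∈ M, toStrongDual ⁻¹' (Metric.closedBall (toStrongDual y) r) := by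
        ext x
        simp [K₀]
      rw [this]
      exact hKcpt.inter_right (isClosed_biInter fun y _ => WeakDual.isClosed_closedBall _ _)
    · intro x hx y hy p q hp hq hpq
      refine ⟨hKconv hx.1 hy.1 hp hq hpq, fun z hz => ?_⟩
      have h1 := convex_closedBall (toStrongDual z) r (Metric.mem_closedBall.2 (hx.2 z hz))
        (Metric.mem_closedBall.2 (hy.2 z hz)) hp hq hpq
      rw [map_add, hlin, hlin]
      exact h1
    · intro s x hx
      refine ⟨hKinv s x hx.1, fun y hy => ?_⟩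
      obtain ⟨z, hz, rfl⟩ := hsurj s y hy
      refine le_trans ?_ (hx.2 z hz)
      rw [dist_eq_norm, dist_eq_norm]
      exact hT.nonexpansive s x (hKC hx.1) z (hMC hz)
  have hd : Metric.diam (toStrongDual '' M) ≤ r := by
    refine Metric.diam_le_of_forall_dist_le_of_nonempty
      (⟨toStrongDual x₀, x₀, hx₀, rfl⟩ : (toStrongDual '' M).Nonempty) ?_
    rintro _ ⟨x, hx, rfl⟩ _ ⟨y, hy, rfl⟩
    have : x ∈ K₀ := by rw [hK₀]; exact hMK hx
    exact this.2 y hy
  exact absurd hd (not_le.2 hrδ)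

theorem main : HasF S2 := by
  refine hasF_of_gen (PresentedMonoid.of Rel Gen.a)
    {PresentedMonoid.of Rel Gen.b, PresentedMonoid.of Rel Gen.c} ?_ (by simp) ?_
  · rintro x (rfl | rfl)
    · exact (conGen Rel).eq.2 (ConGen.Rel.of _ _ Rel.ab)
    · exact (conGen Rel).eq.2 (ConGen.Rel.of _ _ Rel.ac)
  · rw [← top_le_iff, ← PresentedMonoid.closure_range_of Rel]
    refine Submonoid.closure_mono ?_
    rintro _ ⟨g, rfl⟩
    cases g <;> simp

end Q170.FS
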