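import Pool.Agent.Q170.FS.Defs

/-!
# Minimal invariant sets of the partially bicyclic semigroup are norm compact
-/

set_option autoImplicit false

open Set WeakDual Topology

namespace Q170.FS

/-- an isometric self-map of a compact metric set is surjective -/
theorem surj_of_isom {X : Type*} [MetricSpace X] {M : Set X} (hM : IsCompact M) (f : X → X)
    (hf : ∀ x ∈ M, f x ∈ M) (hi : ∀ x ∈ M, ∀ y ∈ M, dist (f x) (f y) = dist x y) :
    ∀ y ∈ M, ∃ x ∈ M, f x = y := by
  intro y hy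
  by_contra hcon
  push Not at hcon
  have hcont : ContinuousOn f M := by
    refine Metric.continuousOn_iff.2 fun x hx ε hε => ⟨ε, hε, fun z hz hzx => ?_⟩
    rw [hi z hz x hx]
    exact hzx
  have hK : IsCompact (f '' M) := hM.image_of_continuousOn hcont
  have hy' : y ∉ f '' M := by
    rintro ⟨x, hx, rfl⟩
    exact hcon x hx rfl
  obtain ⟨ε, hε, hball⟩ := Metric.isOpen_iff.1 hK.isClosed.isOpen_compl y hy'
  let u : ℕ → X := fun n => f^[n] y
  have hu : ∀ n, u n ∈ M := by
    intro n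
    induction n with
    | zero => exact hy
    | succ n ih =>
      have : u (n + 1) = f (u n) := Function.iterate_succ_apply' f n y
      rw [this]
      exact hf _ ih
  have husucc : ∀ n, u (n + 1) = f (u n) := fun n => Function.iterate_succ_apply' f n y
  have hd : ∀ m k, ε ≤ dist (u (m + (k + 1))) (u m) := by
    intro m k
    induction m with
    | zero =>
      by_contra h
      push Not at h
      have h1 : u (0 + (k + 1)) ∈ Metric.ball y ε := h
      have h2 := hball h1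
      apply h2
      rw [zero_add, husucc]
      exact ⟨u k, hu k, rfl⟩
    | succ m ih =>
      have e1 : u (m + 1 + (k + 1)) = f (u (m + (k + 1))) := by
        rw [← husucc]
        congr 1
        omega
      rw [e1, husucc, hi _ (hu _) _ (hu _)]
      exact ih
  obtain ⟨z, hz, φ, hφ, hlim⟩ := hM.tendsto_subseq hu
  have hc := hlim.cauchySeq
  rw [Metric.cauchySeq_iff'] at hc
  obtain ⟨N, hN⟩ := hc ε hε
  have h1 := hN (N + 1) (Nat.le_succ N)
  have h2 : φ N < φ (N + 1) := hφ (Nat.lt_succ_self N)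
  have h3 := hd (φ N) (φ (N + 1) - φ N - 1)
  have h4 : φ N + (φ (N + 1) - φ N - 1 + 1) = φ (N + 1) := by omega
  rw [h4] at h3
  exact absurd h1 (not_lt.2 h3)

section

variable {𝕜 E S : Type*} [RCLike 𝕜] [NormedAddCommGroup E] [NormedSpace 𝕜 E] [CompleteSpace E]
  [Monoid S]

omit [CompleteSpace E] in
theorem IsRep.nonexpansive {S : Type*} [Mul S] {C : Set (WeakDual 𝕜 E)}
    {T : S → WeakDual 𝕜 E → WeakDual 𝕜 E} (h : IsRep C T) (s : S) (x) (hx : x ∈ C) (y)
    (hy : y ∈ C) :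
    ‖toStrongDual (T s x) - toStrongDual (T s y)‖ ≤ ‖toStrongDual x - toStrongDual y‖ :=
  h.nonexp s x hx y hy

/-- small relatively open sets -/
theorem small_open (M : Set (WeakDual 𝕜 E)) (hM : IsCompact M) (hne : M.Nonempty)
    (hsep : TopologicalSpace.IsSeparable (toStrongDual '' M)) (ε : ℝ) (hε : 0 < ε) :
    ∃ U : Set (WeakDual 𝕜 E), IsOpen U ∧ (∃ x ∈ M, x ∈ U) ∧
      ∀ x ∈ M, x ∈ U → ∀ y ∈ M, y ∈ U → dist (toStrongDual x) (toStrongDual y) ≤ ε := by
  obtain ⟨c, hc, hcM⟩ := hsep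
  have : CompactSpace M := isCompact_iff_compactSpace.1 hM
  have : Nonempty M := hne.to_subtype
  have : Countable c := hc.to_subtype
  let F : c → Set M := fun q => {x | dist (toStrongDual (x : WeakDual 𝕜 E)) q ≤ ε / 2}
  have hF : ∀ q, IsClosed (F q) := by
    intro q
    have h1 := (WeakDual.isClosed_closedBall (𝕜 := 𝕜) (E := E) (q : StrongDual 𝕜 E) (ε / 2))
    exact h1.preimage continuous_subtype_val
  have hU : ⋃ q, F q = univ := by
    refine eq_univ_of_forall fun x => ?_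
    have h1 : toStrongDual (x : WeakDual 𝕜 E) ∈ closure c := hcM ⟨x, x.2, rfl⟩
    obtain ⟨q, hq, hd⟩ := Metric.mem_closure_iff.1 h1 (ε / 2) (by linarith)
    exact mem_iUnion.2 ⟨⟨q, hq⟩, hd.le⟩
  obtain ⟨q, x, hx⟩ := nonempty_interior_of_iUnion_of_closed hF hU
  obtain ⟨U, hUo, hUe⟩ := isOpen_induced_iff.1 (isOpen_interior (s := F q))
  have hkey : ∀ y : M, (y : WeakDual 𝕜 E) ∈ U → y ∈ F q := by
    intro y hy
    have : y ∈ Subtype.val ⁻¹' U := hy
    rw [hUe] at this
    exact interior_subset this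
  refine ⟨U, hUo, ⟨x, x.2, ?_⟩, fun y hy hyU z hz hzU => ?_⟩
  · have : x ∈ Subtype.val ⁻¹' U := by rw [hUe]; exact hx
    exact this
  · have h1 : dist (toStrongDual y) (q : StrongDual 𝕜 E) ≤ ε / 2 := hkey ⟨y, hy⟩ hyU
    have h2 : dist (toStrongDual z) (q : StrongDual 𝕜 E) ≤ ε / 2 := hkey ⟨z, hz⟩ hzU
    have h3 := dist_triangle_right (toStrongDual y) (toStrongDual z) (q : StrongDual 𝕜 E)
    linarith

/-- the data of a minimal invariant set -/
structure IsMin (M : Set (WeakDual 𝕜 E)) (T : S → WeakDual 𝕜 E → WeakDual 𝕜 E) : Prop where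
  ne : M.Nonempty
  cpt : IsCompact M
  rep : IsRep M T
  min : ∀ M' ⊆ M, M'.Nonempty → IsCompact M' → (∀ s, ∀ x ∈ M', T s x ∈ M') → M' = M

variable {M : Set (WeakDual 𝕜 E)} {T : S → WeakDual 𝕜 E → WeakDual 𝕜 E}

theorem IsMin.one (h : IsMin M T) : ∀ x ∈ M, T 1 x = x := by
  have h1 : T 1 '' M = M := by
    refine h.min _ ?_ (h.ne.image _) (h.cpt.image_of_continuousOn (h.rep.cont 1)) ?_
    · rintro _ ⟨x, hx, rfl⟩
      exact h.rep.maps 1 x hx
    · rintro s _ ⟨x, hx, rfl⟩
      refine ⟨T s x, h.rep.maps s x hx, ?_⟩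
      rw [← h.rep.mul _ _ _ hx, ← h.rep.mul _ _ _ hx, one_mul, mul_one]
  intro x hx
  rw [← h1] at hx
  obtain ⟨y, hy, rfl⟩ := hx
  rw [← h.rep.mul _ _ _ hy, one_mul]

theorem IsMin.orbit (h : IsMin M T) (U : Set (WeakDual 𝕜 E)) (hU : IsOpen U)
    (hne : ∃ x ∈ M, x ∈ U) : ∀ x ∈ M, ∃ s, T s x ∈ U := by
  by_contra hcon
  push Not at hcon
  obtain ⟨x, hx, hxU⟩ := hcon
  have hM' : {x | x ∈ M ∧ ∀ s, T s x ∉ U} = M := by
    refine h.min _ (fun x hx => hx.1) ⟨x, hx, hxU⟩ ?_ ?_
    · have : {x | x ∈ M ∧ ∀ s, T s x ∉ U} = M ∩ ⋂ s, (M ∩ T s ⁻¹' Uᶜ) := by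
        ext y
        simp only [mem_ofPred_eq, mem_inter_iff, mem_iInter, mem_preimage, mem_compl_iff]
        exact ⟨fun hy => ⟨hy.1, fun s => ⟨hy.1, hy.2 s⟩⟩, fun hy => ⟨hy.1, fun s => (hy.2 s).2⟩⟩
      rw [this]
      exact h.cpt.inter_right (isClosed_iInter fun s =>
        (h.rep.cont s).preimage_isClosed_of_isClosed h.cpt.isClosed hU.isClosed_compl)
    · rintro s y ⟨hy, hy2⟩
      refine ⟨h.rep.maps s y hy, fun t => ?_⟩
      rw [← h.rep.mul _ _ _ hy]
      exact hy2 _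
  obtain ⟨y, hy, hyU⟩ := hne
  have h1 : y ∈ {x | x ∈ M ∧ ∀ s, T s x ∉ U} := by rw [hM']; exact hy
  apply h1.2 1
  rw [h.one y hy]
  exact hyU

theorem pow_mul_pow {a b : S} (hab : a * b = 1) (k : ℕ) : a ^ k * b ^ k = 1 := by
  induction k with
  | zero => simp
  | succ k ih => rw [pow_succ, pow_succ', mul_assoc, ← mul_assoc a b, hab, one_mul, ih]

theorem IsMin.low (h : IsMin M T) (a : S) (B : Set S) (hB : ∀ b ∈ B, a * b = 1)
    (hgen : Submonoid.closure (insert a B) = ⊤) (s : S) :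
    ∃ k : ℕ, ∀ x ∈ M, ∀ y ∈ M, dist (toStrongDual (T (a ^ k) x)) (toStrongDual (T (a ^ k) y)) ≤
      dist (toStrongDual (T s x)) (toStrongDual (T s y)) := by
  have hs : s ∈ Submonoid.closure (insert a B) := by rw [hgen]; trivial
  induction hs using Submonoid.closure_induction_right with
  | one => exact ⟨0, fun x _ y _ => by rw [pow_zero]⟩
  | mul_right t ht g hg ih =>
    obtain ⟨k, hk⟩ := ih
    rcases hg with rfl | hg
    · refine ⟨k + 1, fun x hx y hy => ?_⟩
      have h1 := hk (T g x) (h.rep.maps g x hx) (T g y) (h.rep.maps g y hy)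
      rw [← h.rep.mul _ _ _ hx, ← h.rep.mul _ _ _ hy, ← h.rep.mul _ _ _ hx,
        ← h.rep.mul _ _ _ hy, ← pow_succ] at h1
      exact h1
    · cases k with
      | zero =>
        refine ⟨0, fun x hx y hy => ?_⟩
        have h1 := hk (T g x) (h.rep.maps g x hx) (T g y) (h.rep.maps g y hy)
        rw [pow_zero, h.one _ (h.rep.maps g x hx), h.one _ (h.rep.maps g y hy),
          ← h.rep.mul _ _ _ hx, ← h.rep.mul _ _ _ hy] at h1
        rw [pow_zero, h.one _ hx, h.one _ hy]
        refine le_trans ?_ h1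
        have h2 := h.rep.nonexpansive a (T g x) (h.rep.maps g x hx) (T g y) (h.rep.maps g y hy)
        rw [← h.rep.mul _ _ _ hx, ← h.rep.mul _ _ _ hy, hB g hg, h.one x hx, h.one y hy,
          ← dist_eq_norm, ← dist_eq_norm] at h2
        exact h2
      | succ k =>
        refine ⟨k, fun x hx y hy => ?_⟩
        have h1 := hk (T g x) (h.rep.maps g x hx) (T g y) (h.rep.maps g y hy)
        rw [← h.rep.mul _ _ _ hx, ← h.rep.mul _ _ _ hy, ← h.rep.mul _ _ _ hx,
          ← h.rep.mul _ _ _ hy, pow_succ, mul_assoc, hB g hg, mul_one] at h1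
        exact h1

theorem IsMin.normCompact (h : IsMin M T) (a : S) (B : Set S) (hB : ∀ b ∈ B, a * b = 1)
    (hne : B.Nonempty) (hgen : Submonoid.closure (insert a B) = ⊤)
    (hsep : TopologicalSpace.IsSeparable (toStrongDual '' M)) :
    IsCompact (toStrongDual '' M) := by
  obtain ⟨b, hb⟩ := hne
  have hclosed : IsClosed (toStrongDual '' M) := by
    have h1 : toStrongDual '' M = (fun x' : StrongDual 𝕜 E => StrongDual.toWeakDual x') ⁻¹' M := by
      ext x
      constructor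
      · rintro ⟨y, hy, rfl⟩
        exact hy
      · intro hx
        exact ⟨StrongDual.toWeakDual x, hx, rfl⟩
    rw [h1]
    exact h.cpt.isClosed.preimage NormedSpace.Dual.toWeakDual_continuous
  refine isCompact_iff_totallyBounded_isComplete.2 ⟨?_, hclosed.isComplete⟩
  rw [Metric.totallyBounded_iff]
  intro ε hε
  obtain ⟨U, hUo, hUne, hUd⟩ := small_open M h.cpt h.ne hsep (ε / 2) (by linarith)
  have horb := h.orbit U hUo hUne
  have hV : ∀ s, ∃ V : Set (WeakDual 𝕜 E), IsOpen V ∧ T s ⁻¹' U ∩ M = V ∩ M := fun s =>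
    continuousOn_iff'.1 (h.rep.cont s) U hUo
  choose V hVo hV using hV
  obtain ⟨F, hF⟩ := h.cpt.elim_finite_subcover V hVo (by
    intro x hx
    obtain ⟨s, hs⟩ := horb x hx
    refine mem_iUnion.2 ⟨s, ?_⟩
    have : x ∈ T s ⁻¹' U ∩ M := ⟨hs, hx⟩
    rw [hV s] at this
    exact this.1)
  choose k hk using h.low a B hB hgen
  obtain ⟨N, hN⟩ : ∃ N, ∀ s ∈ F, k s ≤ N := ⟨F.sup k, fun s hs => Finset.le_sup hs⟩
  have hmem : ∀ s, ∀ x ∈ M, x ∈ V s → T s x ∈ U := by
    intro s x hx hxV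
    have : x ∈ V s ∩ M := ⟨hxV, hx⟩
    rw [← hV s] at this
    exact this.1
  classical
  -- the centres of the balls
  let p : S → StrongDual 𝕜 E := fun s =>
    if hs : ∃ x ∈ M, T s x ∈ U then toStrongDual (T (a ^ N) hs.choose) else 0
  refine ⟨p '' (F : Set S), (F.finite_toSet).image p, ?_⟩
  rintro _ ⟨z, hz, rfl⟩
  -- `z = T (a ^ N) x`
  have hx : T (b ^ N) z ∈ M := h.rep.maps _ _ hz
  have hzx : T (a ^ N) (T (b ^ N) z) = z := by
    rw [← h.rep.mul _ _ _ hz, pow_mul_pow (hB b hb), h.one z hz]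
  obtain ⟨s, hs⟩ := mem_iUnion.1 (hF hx)
  obtain ⟨hsF, hsV⟩ := mem_iUnion.1 hs
  have hsU := hmem s _ hx hsV
  have hex : ∃ x ∈ M, T s x ∈ U := ⟨_, hx, hsU⟩
  refine mem_iUnion₂.2 ⟨p s, ⟨s, hsF, rfl⟩, ?_⟩
  have hp : p s = toStrongDual (T (a ^ N) hex.choose) := dif_pos hex
  obtain ⟨hcM, hcU⟩ := hex.choose_spec
  rw [Metric.mem_ball, hp, ← hzx]
  have h1 := hk s _ hx _ hcM
  have h2 := hUd _ (h.rep.maps s _ hx) hsU _ (h.rep.maps s _ hcM) hcU
  have h3 : dist (toStrongDual (T (a ^ N) (T (b ^ N) z)))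
      (toStrongDual (T (a ^ N) hex.choose)) ≤
      dist (toStrongDual (T (a ^ k s) (T (b ^ N) z)))
        (toStrongDual (T (a ^ k s) hex.choose)) := by
    have e1 : a ^ N = a ^ (N - k s) * a ^ k s := by
      rw [← pow_add]
      congr 1
      have := hN s hsF
      omega
    rw [e1, h.rep.mul _ _ _ hx, h.rep.mul _ _ _ hcM, dist_eq_norm, dist_eq_norm]
    exact h.rep.nonexpansive _ _ (h.rep.maps _ _ hx) _ (h.rep.maps _ _ hcM)
  linarith

theorem IsMin.surj (h : IsMin M T) (a : S) (B : Set S) (hB : ∀ b ∈ B, a * b = 1)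
    (hne : B.Nonempty) (hgen : Submonoid.closure (insert a B) = ⊤)
    (hsep : TopologicalSpace.IsSeparable (toStrongDual '' M)) (s : S) :
    ∀ y ∈ M, ∃ x ∈ M, T s x = y := by
  have hcpt := h.normCompact a B hB hne hgen hsep
  have hs : s ∈ Submonoid.closure (insert a B) := by rw [hgen]; trivial
  induction hs using Submonoid.closure_induction_right with
  | one => exact fun y hy => ⟨y, hy, h.one y hy⟩
  | mul_right t ht g hg ih =>
    have hg' : ∀ y ∈ M, ∃ x ∈ M, T g x = y := by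
      rcases hg with rfl | hg
      · obtain ⟨b, hb⟩ := hne
        intro y hy
        refine ⟨T b y, h.rep.maps _ _ hy, ?_⟩
        rw [← h.rep.mul _ _ _ hy, hB b hb, h.one y hy]
      · -- `T g` is isometric
        have hiso : ∀ x ∈ M, ∀ y ∈ M, dist (toStrongDual (T g x)) (toStrongDual (T g y)) =
            dist (toStrongDual x) (toStrongDual y) := by
          intro x hx y hy
          apply le_antisymm
          · rw [dist_eq_norm, dist_eq_norm]
            exact h.rep.nonexpansive g x hx y hy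
          · have h2 := h.rep.nonexpansive a (T g x) (h.rep.maps g x hx) (T g y)
              (h.rep.maps g y hy)
            rw [← h.rep.mul _ _ _ hx, ← h.rep.mul _ _ _ hy, hB g hg, h.one x hx, h.one y hy,
              ← dist_eq_norm, ← dist_eq_norm] at h2
            exact h2
        intro y hy
        obtain ⟨_, ⟨x, hx, rfl⟩, hxy⟩ := surj_of_isom hcpt
          (fun z => toStrongDual (T g (toStrongDual.symm z)))
          (by
            rintro _ ⟨x, hx, rfl⟩
            refine ⟨T g x, h.rep.maps g x hx, ?_⟩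
            simp)
          (by
            rintro _ ⟨x, hx, rfl⟩ _ ⟨y, hy, rfl⟩
            simp only [LinearEquiv.symm_apply_apply]
            exact hiso x hx y hy) (toStrongDual y) ⟨y, hy, rfl⟩
        refine ⟨x, hx, ?_⟩
        simp only [LinearEquiv.symm_apply_apply] at hxy
        exact toStrongDual.injective hxy
    intro y hy
    obtain ⟨x, hx, rfl⟩ := ih y hy
    obtain ⟨z, hz, rfl⟩ := hg' x hx
    exact ⟨z, hz, h.rep.mul _ _ _ hz⟩

end

end Q170.FS
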